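import Mathlib

set_option autoImplicit false
open MeasureTheory Real Set Filter Topology

namespace Pool.Agent.H.MP_360b3f_an

noncomputable def f (s : ℝ) : ℝ := s ^ 2 * smoothTransition (s - 1)

lemma f_nonneg (s : ℝ) : 0 ≤ f s := mul_nonneg (sq_nonneg s) (smoothTransition.nonneg _)

lemma f_le (s : ℝ) : f s ≤ s ^ 2 :=
  mul_le_of_le_one_right (sq_nonneg s) (smoothTransition.le_one _)

lemma f_zero {s : ℝ} (h : s ≤ 1) : f s = 0 := by
  rw [f, smoothTransition.zero_of_nonpos (by linarith), mul_zero]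

lemma f_eq {s : ℝ} (h : 2 ≤ s) : f s = s ^ 2 := by
  rw [f, smoothTransition.one_of_one_le (by linarith), mul_one]

lemma f_smooth : ContDiff ℝ (⊤ : ℕ∞) f :=
  (contDiff_id.pow 2).mul (smoothTransition.contDiff.comp (contDiff_id.sub contDiff_const))

@[fun_prop] lemma f_cont : Continuous f := f_smooth.continuous

noncomputable def G (τ z : ℝ) : ℝ := exp (-z ^ 2 / (4 * τ)) / √(4 * π * τ)

lemma G_nonneg (τ z : ℝ) : 0 ≤ G τ z := by unfold G; positivity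

lemma inv_sqrt_le {τ : ℝ} (h : 0 < τ) : (√(4 * π * τ))⁻¹ ≤ τ ^ (-(1 / 2) : ℝ) := by
  rw [Real.rpow_neg h.le, ← Real.sqrt_eq_rpow]
  exact inv_anti₀ (Real.sqrt_pos.2 h) (Real.sqrt_le_sqrt (by nlinarith [pi_gt_three]))

lemma G_le {τ : ℝ} (h : 0 < τ) (h1 : τ ≤ 1) (z : ℝ) : G τ z ≤ τ ^ (-(3 / 4) : ℝ) := by
  have h2 : exp (-z ^ 2 / (4 * τ)) ≤ 1 := Real.exp_le_one_iff.2
    (div_nonpos_of_nonpos_of_nonneg (by nlinarith [sq_nonneg z]) (by positivity))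
  calc G τ z ≤ 1 * (√(4 * π * τ))⁻¹ := by rw [G, div_eq_mul_inv]; gcongr
    _ ≤ τ ^ (-(1 / 2) : ℝ) := by rw [one_mul]; exact inv_sqrt_le h
    _ ≤ _ := Real.rpow_le_rpow_of_exponent_ge h h1 (by norm_num)

lemma gauss_lip (p q : ℝ) : |exp (-p ^ 2) - exp (-q ^ 2)| ≤ √|p - q| := by
  have h1 : |exp (-p ^ 2) - exp (-q ^ 2)| ≤ |p - q| := by
    have := Convex.norm_image_sub_le_of_norm_hasDerivWithin_le (𝕜 := ℝ) (s := univ) (C := 1)
      (f := fun x : ℝ => exp (-x ^ 2)) (f' := fun x => exp (-x ^ 2) * (-(2 * x)))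
      (fun x _ => HasDerivAt.hasDerivWithinAt
        (by simpa using (hasDerivAt_pow 2 x).fun_neg.exp))
      (fun x _ => by
        rw [Real.norm_eq_abs, abs_mul, abs_of_pos (exp_pos _), abs_neg, abs_mul, Real.exp_neg,
          inv_mul_le_iff₀ (exp_pos _), abs_two]
        nlinarith [Real.add_one_le_exp (x ^ 2), sq_abs x, sq_nonneg (|x| - 1)])
      convex_univ (mem_univ q) (mem_univ p)
    simpa using this
  have h2 : |exp (-p ^ 2) - exp (-q ^ 2)| ≤ 1 := by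
    have a1 : exp (-p ^ 2) ≤ 1 := Real.exp_le_one_iff.2 (by nlinarith [sq_nonneg p])
    have a2 : exp (-q ^ 2) ≤ 1 := Real.exp_le_one_iff.2 (by nlinarith [sq_nonneg q])
    rw [abs_le]; constructor <;> linarith [exp_pos (-p ^ 2), exp_pos (-q ^ 2)]
  apply Real.le_sqrt_of_sq_le
  nlinarith [abs_nonneg (exp (-p ^ 2) - exp (-q ^ 2))]

lemma G_lip {τ : ℝ} (h : 0 < τ) (x y : ℝ) :
    |G τ (x - y) - G τ (0 - y)| ≤ √|x| * τ ^ (-(3 / 4) : ℝ) := by
  have hs : 0 < √τ := Real.sqrt_pos.2 h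
  have e : ∀ z : ℝ, -z ^ 2 / (4 * τ) = -(z / (2 * √τ)) ^ 2 := by
    intro z; rw [div_pow, mul_pow, Real.sq_sqrt h.le]; ring
  rw [G, G, ← sub_div, abs_div, e, e, abs_of_pos (a := √_) (by positivity), div_eq_mul_inv]
  have h1 := gauss_lip ((x - y) / (2 * √τ)) ((0 - y) / (2 * √τ))
  have h2 : √|(x - y) / (2 * √τ) - (0 - y) / (2 * √τ)| ≤ √|x| * τ ^ (-(1 / 4) : ℝ) := by
    have : τ ^ (-(1 / 4) : ℝ) = √((√τ)⁻¹) := by
      rw [Real.sqrt_eq_rpow, Real.sqrt_eq_rpow, ← Real.rpow_neg h.le, ← Real.rpow_mul h.le]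
      norm_num
    rw [this, ← Real.sqrt_mul (abs_nonneg x)]
    apply Real.sqrt_le_sqrt
    rw [← sub_div, abs_div, abs_of_pos (a := 2 * _) (by positivity), ← div_eq_mul_inv,
      show x - y - (0 - y) = x by ring]
    exact div_le_div_of_nonneg_left (abs_nonneg x) hs (by linarith)
  calc _ ≤ (√|x| * τ ^ (-(1 / 4) : ℝ)) * τ ^ (-(1 / 2) : ℝ) :=
        mul_le_mul (h1.trans h2) (inv_sqrt_le h) (by positivity) (by positivity)
    _ = _ := by rw [mul_assoc, ← Real.rpow_add h]; norm_num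

lemma pw_int (t : ℝ) : IntervalIntegrable (fun s => (t - s) ^ (-(3 / 4) : ℝ)) volume 0 t := by
  have := (intervalIntegral.intervalIntegrable_rpow' (a := 0) (b := t) (r := -(3 / 4))
    (by norm_num)).comp_sub_left t
  simpa using this.symm

lemma pw_integral {t δ : ℝ} (ht : 0 ≤ t) (hδ : 0 ≤ δ) (h : t ≤ δ ^ 4) :
    ∫ s in (0 : ℝ)..t, (t - s) ^ (-(3 / 4) : ℝ) ≤ 4 * δ := by
  rw [intervalIntegral.integral_comp_sub_left (fun s => s ^ (-(3 / 4) : ℝ)), sub_self, sub_zero,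
    integral_rpow (Or.inl (by norm_num))]
  have h1 : t ^ (-(3 / 4) + 1 : ℝ) ≤ δ := by
    calc _ ≤ (δ ^ 4) ^ (-(3 / 4) + 1 : ℝ) := Real.rpow_le_rpow ht h (by norm_num)
      _ = δ := by rw [← Real.rpow_natCast, ← Real.rpow_mul hδ]; norm_num
  rw [Real.zero_rpow (by norm_num)]
  norm_num at h1 ⊢
  linarith

noncomputable def e : ℝ → ℝ := indicator (Metric.ball (0 : ℝ) 256) fun y => 16 * (√|y|)⁻¹

lemma e_nonneg (y : ℝ) : 0 ≤ e y := indicator_nonneg (fun y _ => by positivity) y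

lemma e_int : Integrable e := by
  unfold e
  rw [integrable_indicator_iff measurableSet_ball]
  refine integrableOn_ball_of_norm_le_rpow (α := 1 / 2) (C := 16) (by simp) (by simp; norm_num)
    (Filter.Eventually.of_forall fun y => ?_) (Measurable.aestronglyMeasurable (by fun_prop))
  rw [Real.norm_of_nonneg (by positivity), Real.sqrt_eq_rpow, Real.rpow_neg (norm_nonneg _)]
  simp

noncomputable def ξ (x : ℝ) : ℝ := √(√|x|)

@[fun_prop] lemma ξ_cont : Continuous ξ := by unfold ξ; fun_prop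

lemma ξ_nonneg (x : ℝ) : 0 ≤ ξ x := Real.sqrt_nonneg _

lemma ξ_sq (x : ℝ) : ξ x ^ 2 = √|x| := Real.sq_sqrt (Real.sqrt_nonneg _)

lemma ξ_four (x : ℝ) : ξ x ^ 4 = |x| := by
  rw [show ξ x ^ 4 = (ξ x ^ 2) ^ 2 by ring, ξ_sq, Real.sq_sqrt (abs_nonneg x)]

lemma env_e {y a : ℝ} (hy : y ≠ 0) (ha : 0 ≤ a) (h : min (ξ y) 4 * a ≤ 4) :
    f a ≤ e y ∧ a ≤ 1 + e y := by
  have h0 := e_nonneg y
  rcases le_or_gt 4 (ξ y) with h1 | h1
  · rw [min_eq_right h1] at h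
    have : a ≤ 1 := by linarith
    rw [f_zero this]
    exact ⟨h0, by linarith⟩
  · rw [min_eq_left h1.le] at h
    have h2 : y ∈ Metric.ball (0 : ℝ) 256 := by
      rw [mem_ball_zero_iff, Real.norm_eq_abs, ← ξ_four]
      calc ξ y ^ 4 < 4 ^ 4 := pow_lt_pow_left₀ h1 (ξ_nonneg y) (by norm_num)
        _ = 256 := by norm_num
    have h3 : a ^ 2 ≤ e y := by
      have : 0 < √|y| := Real.sqrt_pos.2 (abs_pos.2 hy)
      rw [e, indicator_of_mem h2, ← div_eq_mul_inv, le_div_iff₀ this, ← ξ_sq, ← mul_pow]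
      have := mul_nonneg ha (ξ_nonneg y)
      nlinarith
    exact ⟨(f_le a).trans h3, by nlinarith⟩

noncomputable def u0 (a x : ℝ) : ℝ := max 0 ((a + ξ x)⁻¹ - 1)

lemma u0_cont {a : ℝ} (ha : 0 < a) : Continuous (u0 a) := by
  have : ∀ x, a + ξ x ≠ 0 := fun x => by have := ξ_nonneg x; positivity
  unfold u0
  fun_prop (disch := assumption)

lemma u0_supp {a : ℝ} (ha : 0 < a) : HasCompactSupport (u0 a) := by
  refine HasCompactSupport.intro (isCompact_closedBall (0 : ℝ) 1) fun x hx => ?_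
  have h1 : 1 ≤ |x| := by
    simp only [mem_closedBall_zero_iff, Real.norm_eq_abs, not_le] at hx; exact hx.le
  have h2 : 1 ≤ ξ x := Real.one_le_sqrt.2 (Real.one_le_sqrt.2 h1)
  exact max_eq_left (sub_nonpos.2 (inv_le_one_of_one_le₀ (by linarith)))

lemma u0_env {a : ℝ} (ha : 0 < a) (x : ℝ) : min (ξ x) 4 * u0 a x ≤ 1 := by
  have h0 := ξ_nonneg x
  have h1 : u0 a x ≤ (a + ξ x)⁻¹ := max_le (by positivity) (by linarith)
  calc _ ≤ ξ x * (a + ξ x)⁻¹ := mul_le_mul (min_le_left _ _) h1 (le_max_left _ _) h0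
    _ ≤ 1 := by rw [← div_eq_mul_inv, div_le_one (by positivity)]; linarith

lemma u0_near {a x : ℝ} (ha : 0 < a) (ha' : a ≤ 1 / 10) (hx : ξ x ≤ 1 / 10) :
    4 ≤ u0 a x ∧ (u0 a x)⁻¹ = (a + ξ x) / (1 - (a + ξ x)) := by
  have h0 := ξ_nonneg x
  have h1 : 5 ≤ (a + ξ x)⁻¹ := by
    rw [le_inv_comm₀ (by norm_num) (by positivity)]; linarith
  rw [u0, max_eq_right (by linarith)]
  refine ⟨by linarith, ?_⟩
  have : 0 < 1 - (a + ξ x) := by linarith
  field_simp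

end Pool.Agent.H.MP_360b3f_an
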