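import Pool.Agent.H.MP_360b3f_an.A

set_option autoImplicit false
open MeasureTheory Real Set Filter Topology

namespace Pool.Agent.H.MP_360b3f_an

structure Ker (K : ℝ → ℝ) (κ R : ℝ) : Prop where
  cont : Continuous K
  int : Integrable K
  nonneg : ∀ y, 0 ≤ K y
  le : ∀ y, K y ≤ κ
  lip : ∀ x y, |K x - K y| ≤ κ * |x - y|
  supp : ∀ y, R ≤ |y| → K y = 0
  pos : 0 ≤ R

structure Sol (K u₀ : ℝ → ℝ) (T M : ℝ) (u v : ℝ × ℝ → ℝ) : Prop where
  cu : Continuous u
  cv : Continuous v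
  u0 : ∀ z, 0 ≤ u z
  uM : ∀ z, u z ≤ M
  v0 : ∀ z, 0 ≤ v z
  v1 : ∀ z, v z ≤ 1
  eu : ∀ t ∈ Icc 0 T, ∀ x, u (t, x) = u₀ x + ∫ s in (0 : ℝ)..t,
    (v (s, x) * f (u (s, x)) - ((∫ y, K y) * u (s, x) - ∫ y, K y * u (s, x - y)))
  ev : ∀ t ∈ Icc 0 T, ∀ x, v (t, x) = 1 - ∫ s in (0 : ℝ)..t,
    ∫ y, G (t - s) (x - y) * (v (s, y) * f (u (s, y)))

def Env (u : ℝ × ℝ → ℝ) (t : ℝ) : Prop := ∀ s ∈ Icc 0 t, ∀ x, min (ξ x) 4 * u (s, x) ≤ 4

noncomputable def C0 : ℝ := ∫ y, e y

lemma C0_nonneg : 0 ≤ C0 := integral_nonneg e_nonneg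

variable {K u₀ : ℝ → ℝ} {T M κ R : ℝ} {u v : ℝ × ℝ → ℝ}

noncomputable def B (K : ℝ → ℝ) (u : ℝ × ℝ → ℝ) (z : ℝ × ℝ) : ℝ := ∫ y, K y * u (z.1, z.2 - y)

lemma Sol.B_cont (h : Sol K u₀ T M u v) (hK : Ker K κ R) : Continuous (B K u) := by
  have := h.cu
  have := hK.cont
  refine continuous_of_dominated (bound := fun y => K y * M)
    (fun z => Continuous.aestronglyMeasurable (by fun_prop))
    (fun z => Eventually.of_forall fun y => ?_) (hK.int.mul_const M)
    (Eventually.of_forall fun y => by fun_prop)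
  rw [Real.norm_of_nonneg (mul_nonneg (hK.nonneg y) (h.u0 _))]
  exact mul_le_mul_of_nonneg_left (h.uM _) (hK.nonneg y)

lemma Sol.B_nonneg (h : Sol K u₀ T M u v) (hK : Ker K κ R) (z : ℝ × ℝ) : 0 ≤ B K u z :=
  integral_nonneg fun y => mul_nonneg (hK.nonneg y) (h.u0 _)

lemma Sol.B_M (h : Sol K u₀ T M u v) (hK : Ker K κ R) (z : ℝ × ℝ) : B K u z ≤ (∫ y, K y) * M := by
  rw [← integral_mul_const]
  exact integral_mono_of_nonneg (Eventually.of_forall fun y => mul_nonneg (hK.nonneg y) (h.u0 _))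
    (hK.int.mul_const M)
    (Eventually.of_forall fun y => mul_le_mul_of_nonneg_left (h.uM _) (hK.nonneg y))

lemma B_eq (s x : ℝ) : B K u (s, x) = ∫ y, K (x - y) * u (s, y) := by
  rw [B, ← integral_sub_left_eq_self _ volume x]; simp

lemma Sol.B_int (h : Sol K u₀ T M u v) (hK : Ker K κ R) (s x : ℝ) :
    Integrable fun y => K (x - y) * u (s, y) := by
  have := h.cu
  exact (hK.int.comp_sub_left x).mul_bdd (c := M) (Continuous.aestronglyMeasurable (by fun_prop))
    (Eventually.of_forall fun y => by rw [Real.norm_of_nonneg (h.u0 _)]; exact h.uM _)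

lemma Sol.B_le (h : Sol K u₀ T M u v) (hK : Ker K κ R) {s : ℝ}
    (he : ∀ x, min (ξ x) 4 * u (s, x) ≤ 4) (x : ℝ) : B K u (s, x) ≤ (∫ y, K y) + κ * C0 := by
  rw [B_eq, C0, ← integral_const_mul, ← integral_sub_left_eq_self K volume x,
    ← integral_add (hK.int.comp_sub_left x) (e_int.const_mul κ)]
  refine integral_mono_ae (h.B_int hK s x) ((hK.int.comp_sub_left x).add (e_int.const_mul κ)) ?_
  filter_upwards [Measure.ae_ne volume (0 : ℝ)] with y hy
  nlinarith [mul_le_mul_of_nonneg_left (env_e hy (h.u0 _) (he y)).2 (hK.nonneg (x - y)),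
    mul_le_mul_of_nonneg_right (hK.le (x - y)) (e_nonneg y)]

lemma Sol.B_lip (h : Sol K u₀ T M u v) (hK : Ker K κ R) {s : ℝ}
    (he : ∀ x, min (ξ x) 4 * u (s, x) ≤ 4) {x : ℝ} (hx : |x| ≤ 1) :
    |B K u (s, x) - B K u (s, 0)| ≤ |x| * (κ * (2 * (R + 1) + C0)) := by
  have hκ : 0 ≤ κ := (hK.nonneg 0).trans (hK.le 0)
  have hR := hK.pos
  have i1 : Integrable (indicator (Icc (-(R + 1)) (R + 1)) (1 : ℝ → ℝ)) :=
    (integrable_indicator_iff measurableSet_Icc).2 continuous_const.continuousOn.integrableOn_Icc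
  have i2 : Integrable fun y => indicator (Icc (-(R + 1)) (R + 1)) (1 : ℝ → ℝ) y + e y :=
    i1.add e_int
  rw [B_eq, B_eq, ← integral_sub (h.B_int hK s x) (h.B_int hK s 0), ← Real.norm_eq_abs]
  refine (norm_integral_le_of_norm_le (i2.const_mul (|x| * κ)) ?_).trans (le_of_eq ?_)
  · filter_upwards [Measure.ae_ne volume (0 : ℝ)] with y hy
    have h1 := (env_e hy (h.u0 _) (he y)).2
    have h2 := e_nonneg y
    rw [← sub_mul, norm_mul, Real.norm_of_nonneg (h.u0 _), Real.norm_eq_abs]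
    by_cases hy' : y ∈ Icc (-(R + 1)) (R + 1)
    · rw [indicator_of_mem hy', Pi.one_apply]
      refine mul_le_mul ((hK.lip _ _).trans (le_of_eq ?_)) h1 (h.u0 _) (by positivity)
      rw [show x - y - (0 - y) = x by ring, mul_comm]
    · have h3 : R + 1 ≤ |y| := by
        by_contra hh
        exact hy' (abs_le.1 (not_le.1 hh).le)
      have h4 : R ≤ |x - y| := by
        have := abs_sub_abs_le_abs_sub y x
        rw [abs_sub_comm] at this; linarith
      rw [hK.supp _ h4, hK.supp (0 - y) (by rw [zero_sub, abs_neg]; linarith),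
        indicator_of_notMem hy']
      simp only [sub_self, abs_zero, zero_mul]
      positivity
  · rw [integral_const_mul, integral_add i1 e_int, integral_indicator_one measurableSet_Icc, C0]
    simp only [Real.volume_real_Icc]
    rw [max_eq_left (by linarith)]; ring

lemma Sol.sig_le (h : Sol K u₀ T M u v) {s : ℝ} (he : ∀ x, min (ξ x) 4 * u (s, x) ≤ 4) :
    ∀ᵐ y, |v (s, y) * f (u (s, y))| ≤ e y := by
  filter_upwards [Measure.ae_ne volume (0 : ℝ)] with y hy
  rw [abs_of_nonneg (mul_nonneg (h.v0 _) (f_nonneg _))]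
  exact (mul_le_of_le_one_left (f_nonneg _) (h.v1 _)).trans (env_e hy (h.u0 _) (he y)).1

lemma Sol.inner (h : Sol K u₀ T M u v) {s : ℝ} (he : ∀ x, min (ξ x) 4 * u (s, x) ≤ 4)
    {w : ℝ → ℝ} (hw : Measurable w) {c : ℝ} (hc : ∀ y, |w y| ≤ c) :
    Integrable (fun y => w y * (v (s, y) * f (u (s, y)))) ∧
      |∫ y, w y * (v (s, y) * f (u (s, y)))| ≤ C0 * c := by
  have := h.cu
  have := h.cv
  have hb : ∀ᵐ y, ‖w y * (v (s, y) * f (u (s, y)))‖ ≤ e y * c := by
    filter_upwards [h.sig_le he] with y hy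
    rw [Real.norm_eq_abs, abs_mul, mul_comm]
    exact mul_le_mul hy (hc y) (abs_nonneg _) (e_nonneg y)
  refine ⟨(e_int.mul_const c).mono' (Measurable.aestronglyMeasurable (by fun_prop)) hb, ?_⟩
  rw [← Real.norm_eq_abs]
  refine (norm_integral_le_of_norm_le (e_int.mul_const c) hb).trans (le_of_eq ?_)
  rw [integral_mul_const, C0]

lemma G_meas : Measurable fun z : ℝ × ℝ => G z.1 z.2 := by unfold G; fun_prop

lemma Sol.v_est (h : Sol K u₀ T M u v) {δ t : ℝ} (hδ : 0 ≤ δ) (hδ1 : δ ≤ 1) (hT : T ≤ δ ^ 4)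
    (ht : t ∈ Icc 0 T) (he : Env u t) (x : ℝ) :
    1 - v (t, x) ≤ C0 * (4 * δ) ∧ |v (t, x) - v (t, 0)| ≤ √|x| * (C0 * (4 * δ)) := by
  have hC := C0_nonneg
  have ht1 : t ≤ 1 := ht.2.trans (hT.trans (pow_le_one₀ hδ hδ1))
  have gm : ∀ τ x, Measurable fun y => G τ (x - y) := fun τ x => by unfold G; fun_prop
  have hne : ∀ᵐ s : ℝ, s ≠ t := Measure.ae_ne volume t
  have b1 : ∀ x, ∀ᵐ s : ℝ, s ∈ Ioc 0 t →
      ‖∫ y, G (t - s) (x - y) * (v (s, y) * f (u (s, y)))‖ ≤ C0 * (t - s) ^ (-(3 / 4) : ℝ) := by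
    intro x
    filter_upwards [hne] with s hs hs'
    have h0 : 0 < t - s := sub_pos.2 (lt_of_le_of_ne hs'.2 hs)
    exact (h.inner (he s ⟨hs'.1.le, hs'.2⟩) (gm _ x) fun y => by
      rw [abs_of_nonneg (G_nonneg _ _)]; exact G_le h0 (by linarith [hs'.1]) _).2
  have i1 : ∀ x, IntervalIntegrable
      (fun s => ∫ y, G (t - s) (x - y) * (v (s, y) * f (u (s, y)))) volume 0 t := by
    intro x
    refine ((pw_int t).const_mul C0).mono_fun' ?_ ?_
    · have := h.cu.measurable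
      have := h.cv.measurable
      have := f_cont.measurable
      exact (StronglyMeasurable.integral_prod_right
        (f := fun s y : ℝ => G (t - s) (x - y) * (v (s, y) * f (u (s, y))))
        (Measurable.stronglyMeasurable (by unfold Function.uncurry G; fun_prop))).aestronglyMeasurable
    · rw [uIoc_of_le ht.1]
      exact (ae_restrict_iff' measurableSet_Ioc).2 (b1 x)
  have hp := pw_integral ht.1 hδ (ht.2.trans hT)
  constructor
  · rw [h.ev t ht, sub_sub_cancel]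
    refine (Real.le_norm_self _).trans ((intervalIntegral.norm_integral_le_of_norm_le ht.1 (b1 x)
      ((pw_int t).const_mul C0)).trans ?_)
    rw [intervalIntegral.integral_const_mul]
    exact mul_le_mul_of_nonneg_left hp hC
  · rw [h.ev t ht, h.ev t ht, sub_sub_sub_cancel_left, abs_sub_comm,
      ← intervalIntegral.integral_sub (i1 x) (i1 0), ← Real.norm_eq_abs]
    refine (intervalIntegral.norm_integral_le_of_norm_le ht.1 ?_
      ((pw_int t).const_mul (C0 * √|x|))).trans ?_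
    · filter_upwards [hne] with s hs hs'
      have h0 : 0 < t - s := sub_pos.2 (lt_of_le_of_ne hs'.2 hs)
      have j : ∀ x, Integrable fun y => G (t - s) (x - y) * (v (s, y) * f (u (s, y))) := fun x =>
        (h.inner (he s ⟨hs'.1.le, hs'.2⟩) (gm _ x) fun y => by
          rw [abs_of_nonneg (G_nonneg _ _)]; exact G_le h0 (by linarith [hs'.1]) _).1
      rw [← integral_sub (j x) (j 0)]
      simp_rw [← sub_mul]
      rw [mul_assoc]
      exact (h.inner (he s ⟨hs'.1.le, hs'.2⟩) ((gm _ x).sub (gm _ 0)) fun y => G_lip h0 x y).2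
    · rw [intervalIntegral.integral_const_mul]
      calc _ ≤ C0 * √|x| * (4 * δ) := mul_le_mul_of_nonneg_left hp (by positivity)
        _ = _ := by ring

lemma Sol.deriv (h : Sol K u₀ T M u v) (hK : Ker K κ R) {t : ℝ} (ht : t ∈ Ico 0 T) (x : ℝ) :
    HasDerivWithinAt (fun s => u (s, x))
      (v (t, x) * f (u (t, x)) - ((∫ y, K y) * u (t, x) - B K u (t, x))) (Ici t) t := by
  have := h.cu
  have := h.cv
  have := h.B_cont hK
  have hc : Continuous fun s => v (s, x) * f (u (s, x)) - ((∫ y, K y) * u (s, x) - B K u (s, x)) := by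
    fun_prop
  have d := ((intervalIntegral.integral_hasDerivAt_right (hc.intervalIntegrable 0 t)
    hc.aestronglyMeasurable.stronglyMeasurableAtFilter hc.continuousAt).const_add
    (u₀ x)).hasDerivWithinAt (s := Ici t)
  refine d.congr_of_eventuallyEq ?_ (h.eu t ⟨ht.1, ht.2.le⟩ x)
  filter_upwards [Icc_mem_nhdsGE ht.2] with s hs using h.eu s ⟨ht.1.trans hs.1, hs.2⟩ x

lemma Sol.init (h : Sol K u₀ T M u v) (hT : 0 ≤ T) (x : ℝ) : u (0, x) = u₀ x := by
  simpa using h.eu 0 ⟨le_rfl, hT⟩ x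

end Pool.Agent.H.MP_360b3f_an
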