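import Pool.Agent.H.MP_360b3f_an.B

set_option autoImplicit false
open MeasureTheory Real Set Filter Topology

namespace Pool.Agent.H.MP_360b3f_an

variable {K u₀ : ℝ → ℝ} {T M κ R : ℝ} {u v : ℝ × ℝ → ℝ}

lemma Sol.slice (h : Sol K u₀ T M u v) (x : ℝ) : Continuous fun s => u (s, x) := by
  have := h.cu; fun_prop

lemma Sol.lower (h : Sol K u₀ T M u v) (hK : Ker K κ R) (hT : ((∫ y, K y) + 1) * T ≤ 1 / 2)
    {x : ℝ} (hx : 0 < u₀ x) {t : ℝ} (ht : t ∈ Icc 0 T) : u₀ x / 2 ≤ u (t, x) := by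
  have hk : 0 ≤ ∫ y, K y := integral_nonneg hK.nonneg
  set k := ∫ y, K y
  have := image_le_of_deriv_right_lt_deriv_boundary' (a := 0) (b := T)
    (f := fun s => u₀ x * (1 - (k + 1) * s)) (f' := fun _ => -(u₀ x * (k + 1))) (by fun_prop)
    (fun s _ => HasDerivAt.hasDerivWithinAt
      (((((hasDerivAt_id s).const_mul (k + 1)).const_sub 1).const_mul (u₀ x)).congr_deriv
        (by ring)))
    (B := fun s => u (s, x)) (by simp [h.init (ht.1.trans ht.2)]) (h.slice x).continuousOn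
    (fun s hs => h.deriv hK hs x)
    (fun s hs e => by
      have h1 := mul_nonneg (h.v0 (s, x)) (f_nonneg (u (s, x)))
      have h2 := h.B_nonneg hK (s, x)
      have h3 : u (s, x) ≤ u₀ x := by
        rw [← e]; nlinarith [mul_nonneg hx.le (mul_nonneg (by linarith : 0 ≤ k + 1) hs.1)]
      nlinarith [mul_le_mul_of_nonneg_left h3 hk]) ht
  have h4 : (k + 1) * t ≤ 1 / 2 := (mul_le_mul_of_nonneg_left ht.2 (by linarith)).trans hT
  nlinarith

lemma Sol.upper (h : Sol K u₀ T M u v) (hK : Ker K κ R) {s t c x : ℝ} (hs : 0 ≤ s) (hst : s ≤ t)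
    (ht : t ≤ T) (hc : ∀ r ∈ Ico s t, u (r, x) ^ 2 + B K u (r, x) ≤ c) :
    u (t, x) ≤ u (s, x) + c * (t - s) := by
  have hk : 0 ≤ ∫ y, K y := integral_nonneg hK.nonneg
  exact image_le_of_deriv_right_le_deriv_boundary (a := s) (b := t) (h.slice x).continuousOn
    (fun r hr => h.deriv hK ⟨hs.trans hr.1, hr.2.trans_le ht⟩ x)
    (B := fun r => u (s, x) + c * (r - s)) (B' := fun _ => c) (by simp) (by fun_prop)
    (fun r _ => HasDerivAt.hasDerivWithinAt (by
      simpa using (((hasDerivAt_id r).sub_const s).const_mul c).const_add (u (s, x))))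
    (fun r hr => by
      have h1 := (mul_le_of_le_one_left (f_nonneg (u (r, x))) (h.v1 (r, x))).trans (f_le _)
      nlinarith [hc r hr, mul_nonneg hk (h.u0 (r, x))]) ⟨hst, le_rfl⟩

lemma Sol.wderiv (h : Sol K u₀ T M u v) (hK : Ker K κ R) {t : ℝ} (ht : t ∈ Ico 0 T) {x : ℝ}
    (h2 : 2 ≤ u (t, x)) : HasDerivWithinAt (fun s => (u (s, x))⁻¹)
      (-v (t, x) + (∫ y, K y) * (u (t, x))⁻¹ - (u (t, x))⁻¹ ^ 2 * B K u (t, x)) (Ici t) t := by
  refine ((h.deriv hK ht x).fun_inv (by linarith)).congr_deriv ?_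
  rw [f_eq h2]
  field_simp
  ring

theorem core (hK : Ker K κ R) : ∃ T > 0, ∀ M u v, ¬ Sol K (u0 (T / 10)) T M u v := by
  have hk : 0 ≤ ∫ y, K y := integral_nonneg hK.nonneg
  have hκ : 0 ≤ κ := (hK.nonneg 0).trans (hK.le 0)
  have hR := hK.pos
  have hC := C0_nonneg
  set k := ∫ y, K y with hkd
  set b := k + κ * C0 with hb
  set b' := κ * (2 * (R + 1) + C0) with hb'
  have hb0 : 0 ≤ b := by positivity
  have hb'0 : 0 ≤ b' := by positivity
  set Λ := 162 + 5 * b + 4 * C0 + b' + k with hΛ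
  have hΛ0 : 0 < Λ := by positivity
  set δ := 1 / (2 * Λ) with hδ
  have hδ0 : 0 < δ := by positivity
  have hΛδ : Λ * δ = 1 / 2 := by rw [hδ]; field_simp
  have hδ1 : δ ≤ 1 := by nlinarith
  have hTδ : δ ^ 4 ≤ δ := pow_le_of_le_one hδ0.le hδ1 (by norm_num)
  refine ⟨δ ^ 4, by positivity, fun M u v h => ?_⟩
  have hT4 : δ ^ 4 ≤ δ ^ 4 := le_rfl
  generalize hTd : δ ^ 4 = T at h hTδ
  have hT0 : 0 < T := by rw [← hTd]; positivity
  have hT4 : T ≤ δ ^ 4 := hTd.ge
  have hΛT : Λ * T ≤ 1 / 2 := hΛδ ▸ mul_le_mul_of_nonneg_left hTδ hΛ0.le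
  set a := T / 10 with ha
  have ha0 : 0 < a := by positivity
  have ha1 : a ≤ 1 / 10 := by rw [ha]; linarith
  have hkT : (k + 1) * T ≤ 1 / 2 := le_trans (mul_le_mul_of_nonneg_right (by linarith) hT0.le) hΛT
  have hCδ : C0 * (4 * δ) ≤ 1 / 2 := by
    have := mul_le_mul_of_nonneg_right (by linarith : 4 * C0 ≤ Λ) hδ0.le
    linarith
  have near : ∀ x, ξ x ≤ 1 / 10 → ∀ t ∈ Icc 0 T, 2 ≤ u (t, x) := by
    intro x hx t ht
    have h4 := (u0_near ha0 ha1 hx).1
    linarith [h.lower hK hkT (x := x) (by linarith) ht]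
  have hξ0 : ξ 0 = 0 := by simp [ξ]
  have improve : ∀ t ∈ Icc 0 T, Env u t → ∀ x, min (ξ x) 4 * u (t, x) ≤ 2 := by
    intro t ht he x
    have hx0 := ξ_nonneg x
    rcases le_or_gt (1 / 10) (ξ x) with hx | hx
    · set z := min (ξ x) 4 with hz
      have hz0 : 1 / 10 ≤ z := le_min hx (by norm_num)
      have hz4 : z ≤ 4 := min_le_right _ _
      have h1 := h.upper hK (c := 16 / z ^ 2 + b) (x := x) le_rfl ht.1 ht.2 fun r hr => by
        have e1 := he r ⟨hr.1, hr.2.le⟩
        refine add_le_add ?_ (h.B_le hK e1 x)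
        rw [le_div_iff₀ (by positivity), ← mul_pow]
        nlinarith only [e1 x, mul_nonneg (h.u0 (r, x)) (by linarith : 0 ≤ z)]
      rw [h.init hT0.le, sub_zero] at h1
      have h2 := u0_env ha0 x
      have h3 : z * (16 / z ^ 2 + b) ≤ 160 + 4 * b := by
        have e1 : z * (16 / z ^ 2) = 16 / z := by field_simp
        have e2 : 16 / z ≤ 160 := by rw [div_le_iff₀ (by positivity)]; linarith
        rw [mul_add, e1]
        exact add_le_add e2 (mul_le_mul_of_nonneg_right hz4 hb0)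
      have h4 : z * (16 / z ^ 2 + b) * t ≤ 1 := by
        calc _ ≤ Λ * T := mul_le_mul (h3.trans (by linarith)) ht.2 ht.1 hΛ0.le
          _ ≤ 1 := by linarith
      linarith only [mul_le_mul_of_nonneg_left h1 (by linarith : 0 ≤ z), h2, h4]
    rw [min_eq_left (by linarith)]
    rcases eq_or_lt_of_le hx0 with hx1 | hx1
    · rw [← hx1]; simp
    have n0 := near 0 (by rw [hξ0]; norm_num)
    have nx := near x hx.le
    have key := image_le_of_deriv_right_lt_deriv_boundary' (a := 0) (b := t)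
      (f := fun s => ξ x * (1 - Λ * s)) (f' := fun _ => -(ξ x * Λ)) (by fun_prop)
      (fun s _ => HasDerivAt.hasDerivWithinAt (by
        simpa using (((hasDerivAt_id s).const_mul Λ).const_sub 1).const_mul (ξ x)))
      (B := fun s => (u (s, x))⁻¹ - (u (s, 0))⁻¹)
      (by
        simp only [h.init hT0.le, (u0_near ha0 ha1 hx.le).2,
          (u0_near ha0 ha1 (x := 0) (by rw [hξ0]; norm_num)).2, hξ0, add_zero, mul_zero, sub_zero,
          mul_one]
        have p1 : 0 < 1 - (a + ξ x) := by linarith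
        have p2 : 0 < 1 - a := by linarith
        rw [div_sub_div _ _ p1.ne' p2.ne', le_div_iff₀ (by positivity)]
        have : (1 - (a + ξ x)) * (1 - a) ≤ 1 := mul_le_one₀ (by linarith) p2.le (by linarith)
        linarith only [mul_le_mul_of_nonneg_left this hx0])
      (((h.slice x).continuousOn.inv₀ fun s hs => by
          linarith [nx s ⟨hs.1, hs.2.trans ht.2⟩]).sub
        ((h.slice 0).continuousOn.inv₀ fun s hs => by linarith [n0 s ⟨hs.1, hs.2.trans ht.2⟩]))
      (fun s hs => (h.wderiv hK ⟨hs.1, hs.2.trans_le ht.2⟩ (nx s ⟨hs.1, hs.2.le.trans ht.2⟩)).fun_sub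
        (h.wderiv hK ⟨hs.1, hs.2.trans_le ht.2⟩ (n0 s ⟨hs.1, hs.2.le.trans ht.2⟩)))
      (fun s hs e => by
        have hsT : s ∈ Icc 0 T := ⟨hs.1, hs.2.le.trans ht.2⟩
        have es : Env u s := fun r hr => he r ⟨hr.1, hr.2.trans hs.2.le⟩
        have e1 := he s ⟨hs.1, hs.2.le⟩
        have v1 := (abs_le.1 (h.v_est hδ0.le hδ1 hT4 hsT es x).2).2
        have x4 : |x| ≤ ξ x := by
          rw [← ξ_four]; exact pow_le_of_le_one hx0 (by linarith) (by norm_num)
        have x2 : √|x| ≤ ξ x := by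
          rw [← ξ_sq]; exact pow_le_of_le_one hx0 (by linarith) (by norm_num)
        have B1 := (abs_le.1 (h.B_lip hK e1 (x := x) (by linarith))).2
        have B2 := h.B_le hK e1 x
        have B3 := h.B_nonneg hK (s, x)
        have w1 : (u (s, x))⁻¹ ≤ 2⁻¹ := inv_anti₀ (by norm_num) (nx s hsT)
        have w2 : (u (s, 0))⁻¹ ≤ 2⁻¹ := inv_anti₀ (by norm_num) (n0 s hsT)
        have w3 : 0 < (u (s, x))⁻¹ := inv_pos.2 (by linarith [nx s hsT])
        have w4 : 0 < (u (s, 0))⁻¹ := inv_pos.2 (by linarith [n0 s hsT])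
        have l1 : Λ * s ≤ 1 / 2 := (mul_le_mul_of_nonneg_left hsT.2 hΛ0.le).trans hΛT
        have l2 : 0 ≤ Λ * s := mul_nonneg hΛ0.le hs.1
        rw [← hkd]
        generalize (u (s, x))⁻¹ = w at *
        generalize (u (s, 0))⁻¹ = w0 at *
        have d0 : 0 ≤ w - w0 := by rw [← e]; exact mul_nonneg hx0 (by linarith)
        have d1 : w - w0 ≤ ξ x := by rw [← e]; exact mul_le_of_le_one_right hx0 (by linarith)
        have t1 : v (s, x) - v (s, 0) ≤ ξ x * (4 * C0) :=
          v1.trans (mul_le_mul x2 (by linarith only [mul_le_mul_of_nonneg_left hδ1 hC])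
            (by positivity) hx0)
        have t2 : (w + w0) * (w - w0) * B K u (s, x) ≤ ξ x * b := by
          refine mul_le_mul ?_ B2 B3 hx0
          exact (mul_le_of_le_one_left d0 (by linarith)).trans d1
        have t3 : w0 ^ 2 * (B K u (s, x) - B K u (s, 0)) ≤ ξ x * b' := by
          have : |x| * b' ≤ ξ x * b' := mul_le_mul_of_nonneg_right x4 hb'0
          have h9 : w0 ^ 2 ≤ 1 := pow_le_one₀ w4.le (by linarith)
          calc _ ≤ w0 ^ 2 * (ξ x * b') := mul_le_mul_of_nonneg_left (B1.trans this) (sq_nonneg _)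
            _ ≤ _ := mul_le_of_le_one_left (by positivity) h9
        have t4 := mul_nonneg hk d0
        have t5 : ξ x * (4 * C0 + b + b') < ξ x * Λ := mul_lt_mul_of_pos_left (by linarith) hx1
        linarith only [t1, t2, t3, t4, t5]) ⟨ht.1, le_rfl⟩
    have l1 : Λ * t ≤ 1 / 2 := (mul_le_mul_of_nonneg_left ht.2 hΛ0.le).trans hΛT
    have w4 : 0 < (u (t, 0))⁻¹ := inv_pos.2 (by linarith [n0 t ht])
    have h5 : ξ x / 2 ≤ (u (t, x))⁻¹ := by
      linarith only [key, w4, mul_le_mul_of_nonneg_left l1 hx0]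
    have hu : 0 < u (t, x) := by linarith [nx t ht]
    have := mul_le_mul_of_nonneg_right h5 hu.le
    rw [inv_mul_cancel₀ hu.ne'] at this
    linarith
  have hM : 0 ≤ M := (h.u0 0).trans (h.uM 0)
  set L := M ^ 2 + k * M + 1 with hL
  have hL0 : 0 < L := by positivity
  have step : ∀ n : ℕ, Env u (min (n * (1 / (2 * L))) T) := by
    intro n
    induction n with
    | zero =>
      intro s hs x
      have : s = 0 := le_antisymm (by simpa [hT0.le] using hs.2) hs.1
      rw [this, h.init hT0.le]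
      linarith [u0_env ha0 x]
    | succ n ih =>
      intro s hs x
      set t := min (n * (1 / (2 * L))) T with ht
      have ht0 : 0 ≤ t := le_min (by positivity) hT0.le
      rcases le_or_gt s t with h1 | h1
      · exact ih s ⟨hs.1, h1⟩ x
      have h2 := improve t ⟨ht0, min_le_right _ _⟩ ih x
      have h3 := h.upper hK (c := L) (x := x) ht0 h1.le (hs.2.trans (min_le_right _ _))
        fun r _ => by
          have := h.B_M hK (r, x)
          have := pow_le_pow_left₀ (h.u0 (r, x)) (h.uM (r, x)) 2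
          linarith
      have h4 : s - t ≤ 1 / (2 * L) := by
        have s1 : s ≤ (n + 1) * (1 / (2 * L)) := by simpa using hs.2.trans (min_le_left _ _)
        have s2 : s ≤ T := hs.2.trans (min_le_right _ _)
        rcases min_choice (n * (1 / (2 * L))) T with e | e
        · have : t = n * (1 / (2 * L)) := ht.trans e
          linarith
        · have : t = T := ht.trans e
          linarith
      have h5 : L * (s - t) ≤ 1 / 2 := by
        calc _ ≤ L * (1 / (2 * L)) := mul_le_mul_of_nonneg_left h4 hL0.le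
          _ = _ := by field_simp
      have z0 : 0 ≤ min (ξ x) 4 := le_min (ξ_nonneg x) (by norm_num)
      have z4 : min (ξ x) 4 ≤ 4 := min_le_right _ _
      linarith only [h2, mul_le_mul_of_nonneg_left h3 z0,
        mul_le_mul z4 h5 (mul_nonneg hL0.le (by linarith)) (by norm_num)]
  obtain ⟨n, hn⟩ := exists_nat_ge (T / (1 / (2 * L)))
  have hE : Env u T := by
    have := step n
    rwa [min_eq_right ((div_le_iff₀ (by positivity)).1 hn)] at this
  have n0 := near 0 (by rw [hξ0]; norm_num)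
  obtain ⟨i1, i2⟩ := u0_near ha0 ha1 (x := 0) (by rw [hξ0]; norm_num)
  rw [hξ0, add_zero] at i2
  have i3 : (u0 a 0)⁻¹ ≤ 2 * a := by
    rw [i2, div_le_iff₀ (by linarith)]; nlinarith only [ha0, ha1]
  have fin := image_le_of_deriv_right_le_deriv_boundary (a := 0) (b := T)
    (f := fun s => (u (s, 0))⁻¹) ((h.slice 0).continuousOn.inv₀ fun s hs => by linarith [n0 s hs])
    (fun s hs => h.wderiv hK hs (n0 s ⟨hs.1, hs.2.le⟩))
    (B := fun r => 2 * a - r / 4) (B' := fun _ => -(1 / 4)) (by simpa [h.init hT0.le] using i3)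
    (by fun_prop)
    (fun r _ => HasDerivAt.hasDerivWithinAt (by
      simpa using ((hasDerivAt_id r).div_const 4).const_sub (2 * a)))
    (fun s hs => by
      have hsT : s ∈ Icc 0 T := ⟨hs.1, hs.2.le⟩
      have v1 := (h.v_est hδ0.le hδ1 hT4 hsT (fun r hr => hE r ⟨hr.1, hr.2.trans hsT.2⟩) 0).1
      have w1 : (u (s, 0))⁻¹ ≤ (u0 a 0 / 2)⁻¹ :=
        inv_anti₀ (by linarith) (h.lower hK hkT (by linarith) hsT)
      rw [inv_div, div_eq_mul_inv] at w1
      have w2 : k * (u (s, 0))⁻¹ ≤ k * (4 * a) := mul_le_mul_of_nonneg_left (by linarith) hk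
      have := mul_nonneg (sq_nonneg (u (s, 0))⁻¹) (h.B_nonneg hK (s, 0))
      rw [← hkd]
      have w3 : k * (4 * a) ≤ 1 / 5 := by rw [ha]; linarith only [hkT, hT0]
      linarith only [v1, w2, w3, this, hCδ]) ⟨hT0.le, le_rfl⟩
  have : 0 < (u (T, 0))⁻¹ := inv_pos.2 (by linarith [n0 T ⟨hT0.le, le_rfl⟩])
  linarith

end Pool.Agent.H.MP_360b3f_an
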